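import Pool.Agent.TH691.US.Sym
import Pool.Agent.TH667.J1581
import Pool.Agent.TH897.J1582
import Pool.Agent.TH645.J1583
import Pool.Agent.TH645.J1584

/-!
# The rate of convergence for the probability that `Av(π)` is unsplittable
-/

set_option autoImplicit false
set_option maxHeartbeats 4000000

namespace Pool.Agent.Y866.US

open Equiv Filter Topology Finset
open Pool.Agent.TH691.US Pool.Agent.W6.PS
open Pool.Agent.TH897.J1582

/-- sharper lower bound for the sums in the inclusion-exclusion formula -/
theorem S_ge' (n k : ℕ) (hk : k < n) :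
    2 ^ k * (((n : ℝ) - k) / ((k.factorial : ℝ) * n) - k / (((k - 1).factorial : ℝ) * n)) ≤ S n k := by
  classical
  have hn : (0 : ℝ) < n := by
    have : 0 < n := by omega
    exact_mod_cast this
  have hf : (0 : ℝ) < n.factorial := by positivity
  have h1 : ((powersetCard k (range (n - 1))).filter (fun J => Sep J)).card +
      ((powersetCard k (range (n - 1))).filter (fun J => ¬ Sep J)).card = (n - 1).choose k := by
    rw [Finset.card_filter_add_card_filter_not, Finset.card_powersetCard, Finset.card_range]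
  have h2 := card_nonsep (n - 1) k
  have h3 : ((n - 1).choose k : ℝ) - k * ((n - 1).choose (k - 1) : ℝ) ≤
      (((powersetCard k (range (n - 1))).filter (fun J => Sep J)).card : ℝ) := by
    have h4 : (((powersetCard k (range (n - 1))).filter (fun J => Sep J)).card : ℝ) +
      (((powersetCard k (range (n - 1))).filter (fun J => ¬ Sep J)).card : ℝ) =
        ((n - 1).choose k : ℝ) := by exact_mod_cast h1
    have h5 : (((powersetCard k (range (n - 1))).filter (fun J => ¬ Sep J)).card : ℝ) ≤
        k * ((n - 1).choose (k - 1) : ℝ) := by exact_mod_cast h2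
    linarith
  have h4 : (((powersetCard k (range (n - 1))).filter (fun J => Sep J)).card : ℝ) *
      (2 ^ k * ((n - k).factorial : ℝ)) ≤ ∑ J ∈ powersetCard k (range (n - 1)), (N n J : ℝ) := by
    calc (((powersetCard k (range (n - 1))).filter (fun J => Sep J)).card : ℝ) *
        (2 ^ k * ((n - k).factorial : ℝ)) =
        ∑ J ∈ (powersetCard k (range (n - 1))).filter (fun J => Sep J),
          (2 ^ k * ((n - k).factorial : ℝ)) := by rw [Finset.sum_const, nsmul_eq_mul]
      _ ≤ ∑ J ∈ (powersetCard k (range (n - 1))).filter (fun J => Sep J), (N n J : ℝ) := by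
          apply Finset.sum_le_sum
          intro J hJ
          rw [mem_filter, mem_powersetCard] at hJ
          have := N_sep k n J hJ.1.2 hJ.1.1 hJ.2
          exact_mod_cast this
      _ ≤ ∑ J ∈ powersetCard k (range (n - 1)), (N n J : ℝ) :=
          Finset.sum_le_sum_of_subset_of_nonneg (Finset.filter_subset _ _)
            (fun _ _ _ => Nat.cast_nonneg _)
  have h5 : (k : ℝ) * ((n - 1).choose (k - 1) : ℝ) * ((n - k).factorial : ℝ) /
      (n.factorial : ℝ) = k / (((k - 1).factorial : ℝ) * n) := by
    rcases k with _ | k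
    · simp
    · have h6 := Nat.choose_mul_factorial_mul_factorial (show k ≤ n - 1 by omega)
      have h7 : n - 1 - k = n - (k + 1) := by omega
      rw [h7] at h6
      have h8 : (((n - 1).choose k : ℝ)) * (k.factorial : ℝ) * ((n - (k + 1)).factorial : ℝ) =
          ((n - 1).factorial : ℝ) := by exact_mod_cast h6
      have h9 : (n.factorial : ℝ) = n * ((n - 1).factorial : ℝ) := by
        have := Nat.mul_factorial_pred (show n ≠ 0 by omega)
        rw [← this]; push_cast; ring
      have hkf : (0 : ℝ) < (k.factorial : ℝ) := by positivity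
      rw [div_eq_div_iff hf.ne' (by positivity), h9, ← h8]
      simp only [Nat.add_sub_cancel]
      ring
  have h6 := choose_id n k hk
  calc 2 ^ k * (((n : ℝ) - k) / ((k.factorial : ℝ) * n) - k / (((k - 1).factorial : ℝ) * n))
      = 2 ^ k * (((n - 1).choose k : ℝ) * ((n - k).factorial : ℝ) / (n.factorial : ℝ) -
        (k : ℝ) * ((n - 1).choose (k - 1) : ℝ) * ((n - k).factorial : ℝ) /
          (n.factorial : ℝ)) := by
        rw [h6, h5]
    _ = (((n - 1).choose k : ℝ) - k * ((n - 1).choose (k - 1) : ℝ)) *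
        (2 ^ k * ((n - k).factorial : ℝ)) / (n.factorial : ℝ) := by ring
    _ ≤ (((powersetCard k (range (n - 1))).filter (fun J => Sep J)).card : ℝ) *
        (2 ^ k * ((n - k).factorial : ℝ)) / (n.factorial : ℝ) := by
        apply div_le_div_of_nonneg_right _ hf.le
        exact mul_le_mul_of_nonneg_right h3 (by positivity)
    _ ≤ S n k := by
        unfold S
        exact div_le_div_of_nonneg_right h4 hf.le

/-- the weights in the error term -/
noncomputable def wt (k : ℕ) : ℝ := 2 ^ k * (k / (k.factorial : ℝ) + k / ((k - 1).factorial : ℝ))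

theorem S_near (n k : ℕ) (hn : 0 < n) : |S n k - 2 ^ k / (k.factorial : ℝ)| ≤ wt k / n := by
  have hn' : (0 : ℝ) < n := by exact_mod_cast hn
  have hkf : (0 : ℝ) < (k.factorial : ℝ) := by positivity
  have hkf1 : (0 : ℝ) < ((k - 1).factorial : ℝ) := by positivity
  rw [abs_sub_comm, abs_of_nonneg (by linarith [S_le n k])]
  rcases Nat.lt_or_ge k n with hk | hk
  · have h := S_ge' n k hk
    unfold wt
    have e : 2 ^ k / (k.factorial : ℝ) -
        2 ^ k * (((n : ℝ) - k) / ((k.factorial : ℝ) * n) - k / (((k - 1).factorial : ℝ) * n)) =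
        2 ^ k * (k / (k.factorial : ℝ) + k / ((k - 1).factorial : ℝ)) / n := by
      field_simp
      ring
    linarith
  · have h0 := S_nonneg n k
    have h1 : (n : ℝ) ≤ k := by exact_mod_cast hk
    have h2 : 2 ^ k / (k.factorial : ℝ) ≤ wt k / n := by
      unfold wt
      rw [le_div_iff₀ hn']
      have h3 : (2 : ℝ) ^ k / (k.factorial : ℝ) * n ≤ 2 ^ k / (k.factorial : ℝ) * k :=
        mul_le_mul_of_nonneg_left h1 (by positivity)
      have h4 : (0 : ℝ) ≤ 2 ^ k * (k / ((k - 1).factorial : ℝ)) := by positivity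
      calc (2 : ℝ) ^ k / (k.factorial : ℝ) * n ≤ 2 ^ k / (k.factorial : ℝ) * k := h3
        _ = 2 ^ k * (k / (k.factorial : ℝ)) := by ring
        _ ≤ 2 ^ k * (k / (k.factorial : ℝ)) + 2 ^ k * (k / ((k - 1).factorial : ℝ)) := by linarith
        _ = _ := by ring
    linarith

theorem wt_succ (k : ℕ) : wt (k + 1) = 2 * (2 ^ k / (k.factorial : ℝ)) + 2 * ((k + 1) * 2 ^ k / (k.factorial : ℝ)) := by
  unfold wt
  have hkf : (0 : ℝ) < (k.factorial : ℝ) := by positivity
  have e : ((k + 1).factorial : ℝ) = (k + 1) * (k.factorial : ℝ) := by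
    rw [Nat.factorial_succ]; push_cast; ring
  rw [e, Nat.add_sub_cancel]
  push_cast
  field_simp
  ring

theorem hasSum_a : HasSum (fun k : ℕ => (2 : ℝ) ^ k / (k.factorial : ℝ)) (Real.exp 2) := by
  rw [Real.exp_eq_exp_ℝ, NormedSpace.exp_eq_tsum_div]
  exact (Real.summable_pow_div_factorial 2).hasSum

theorem hasSum_b : HasSum (fun k : ℕ => (k : ℝ) * 2 ^ k / (k.factorial : ℝ)) (2 * Real.exp 2) := by
  have h := (hasSum_nat_add_iff (f := fun k : ℕ => (k : ℝ) * 2 ^ k / (k.factorial : ℝ)) 1
    (g := 2 * Real.exp 2)).1 ?_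
  · simpa using h
  · have h1 := hasSum_a.mul_left 2
    refine h1.congr_fun ?_
    intro k
    have e : ((k + 1).factorial : ℝ) = (k + 1) * (k.factorial : ℝ) := by
      rw [Nat.factorial_succ]; push_cast; ring
    rw [e]
    have hkf : (0 : ℝ) < (k.factorial : ℝ) := by positivity
    push_cast
    field_simp
    ring

theorem hasSum_wt : HasSum wt (8 * Real.exp 2) := by
  have h := (hasSum_nat_add_iff (f := wt) 1 (g := 8 * Real.exp 2)).1 ?_
  · have h0 : wt 0 = 0 := by simp [wt]
    simpa [h0] using h
  · have h1 := (hasSum_a.mul_left 4).add (hasSum_b.mul_left 2)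
    have e : 4 * Real.exp 2 + 2 * (2 * Real.exp 2) = 8 * Real.exp 2 := by ring
    rw [e] at h1
    refine h1.congr_fun ?_
    intro k
    rw [wt_succ]
    ring

theorem exp_two_lt : 8 * Real.exp 2 < 60 := by
  have h := Real.exp_one_lt_d9
  have h2 : Real.exp 2 = Real.exp 1 * Real.exp 1 := by
    rw [← Real.exp_add]; norm_num
  have h0 := Real.exp_pos 1
  rw [h2]
  nlinarith

/-- the rate for the permutations without adjacencies -/
theorem noAdj_rate (n : ℕ) (hn : 0 < n) :
    |frac n (fun π => ¬ HasAdj π) - Real.exp (-2)| ≤ 60 / n := by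
  have hn' : (0 : ℝ) < n := by exact_mod_cast hn
  have hlim : Real.exp (-2) = ∑' k : ℕ, (-1 : ℝ) ^ k * (2 ^ k / (k.factorial : ℝ)) := by
    rw [Real.exp_eq_exp_ℝ, NormedSpace.exp_eq_tsum_div]
    refine tsum_congr ?_
    intro k
    rw [← mul_div_assoc, ← mul_pow]
    norm_num
  have hb : ∀ k : ℕ, ‖(-1 : ℝ) ^ k * S n k‖ ≤ 2 ^ k / (k.factorial : ℝ) := by
    intro k
    rw [norm_mul, norm_pow, norm_neg, norm_one, one_pow, one_mul, Real.norm_eq_abs,
      abs_of_nonneg (S_nonneg n k)]
    exact S_le n k
  have s1 : Summable (fun k : ℕ => (-1 : ℝ) ^ k * S n k) :=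
    Summable.of_norm_bounded (Real.summable_pow_div_factorial 2) hb
  have s2 : Summable (fun k : ℕ => (-1 : ℝ) ^ k * (2 ^ k / (k.factorial : ℝ))) := by
    refine Summable.of_norm_bounded (Real.summable_pow_div_factorial 2) ?_
    intro k
    rw [norm_mul, norm_pow, norm_neg, norm_one, one_pow, one_mul, Real.norm_eq_abs,
      abs_of_nonneg (by positivity)]
  rw [frac_eq n, hlim, ← s1.tsum_sub s2]
  have hd : ∀ k : ℕ, ‖(-1 : ℝ) ^ k * S n k - (-1 : ℝ) ^ k * (2 ^ k / (k.factorial : ℝ))‖ ≤
      wt k / n := by
    intro k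
    rw [← mul_sub, norm_mul, norm_pow, norm_neg, norm_one, one_pow, one_mul, Real.norm_eq_abs]
    exact S_near n k hn
  have hw : HasSum (fun k => wt k / n) (8 * Real.exp 2 / n) := hasSum_wt.div_const _
  have h := tsum_of_norm_bounded hw hd
  rw [Real.norm_eq_abs] at h
  refine h.trans ?_
  exact div_le_div_of_nonneg_right exp_two_lt.le hn'.le

theorem bad_le (n : ℕ) (hn : 12 ≤ n) : frac n (fun π => Bad π) ≤ 462192 / n := by
  have h1 := Pool.Agent.TH645.US.frac_hull_le n hn
  have h2 := Pool.Agent.TH645.US.frac_low_le n (by omega)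
  have hn' : (0 : ℝ) < n := by exact_mod_cast (by omega : 0 < n)
  have h3 : frac n (fun π : Perm (Fin n) => HullBad π ∨ LowBad π) ≤ 115548 / n := by
    refine frac_or.trans ?_
    have : (115548 : ℝ) / n = 115200 / n + 348 / n := by ring
    linarith
  have h4 : frac n (fun π : Perm (Fin n) => HullBad (rc π) ∨ LowBad (rc π)) ≤ 115548 / n :=
    (frac_comp (P := fun π : Perm (Fin n) => HullBad π ∨ LowBad π) rc (rc_injective n)).trans h3
  have h5 : frac n (fun π : Perm (Fin n) =>
      (HullBad π ∨ LowBad π) ∨ (HullBad (rc π) ∨ LowBad (rc π))) ≤ 231096 / n := by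
    refine frac_or.trans ?_
    have : (231096 : ℝ) / n = 115548 / n + 115548 / n := by ring
    linarith
  have h6 : frac n (fun π : Perm (Fin n) =>
      (HullBad (compl π) ∨ LowBad (compl π)) ∨
        (HullBad (rc (compl π)) ∨ LowBad (rc (compl π)))) ≤ 231096 / n :=
    (frac_comp (P := fun π : Perm (Fin n) =>
      (HullBad π ∨ LowBad π) ∨ (HullBad (rc π) ∨ LowBad (rc π))) compl (compl_injective n)).trans h5
  have h7 : frac n (fun π : Perm (Fin n) => ((HullBad π ∨ LowBad π) ∨ (HullBad (rc π) ∨ LowBad (rc π))) ∨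
      ((HullBad (compl π) ∨ LowBad (compl π)) ∨
        (HullBad (rc (compl π)) ∨ LowBad (rc (compl π))))) ≤ 462192 / n := by
    refine frac_or.trans ?_
    have : (462192 : ℝ) / n = 231096 / n + 231096 / n := by ring
    linarith
  exact h7

/-- **the rate of convergence** -/
theorem rate (n : ℕ) (hn : 1 ≤ n) : |p n - Real.exp (-2)| ≤ 462252 / n := by
  have hn' : (0 : ℝ) < n := by exact_mod_cast hn
  have hp0 : 0 ≤ p n := by unfold p; positivity
  have hp1 : p n ≤ 1 := by
    unfold p
    rw [div_le_one (by positivity)]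
    have := @Finset.card_filter_le _ (Finset.univ : Finset (Perm (Fin n)))
      (fun π : Perm (Fin n) => Unsplittable (Av π)) (fun _ => Classical.propDecidable _)
    rw [Finset.card_univ, Fintype.card_perm, Fintype.card_fin] at this
    exact_mod_cast this
  have he0 : 0 < Real.exp (-2) := Real.exp_pos _
  have he1 : Real.exp (-2) ≤ 1 := by
    rw [Real.exp_le_one_iff]; norm_num
  rcases Nat.lt_or_ge n 20 with h20 | h20
  · have h1 : |p n - Real.exp (-2)| ≤ 1 := by
      rw [abs_le]; constructor <;> linarith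
    refine h1.trans ?_
    rw [le_div_iff₀ hn']
    have : (n : ℝ) < 20 := by exact_mod_cast h20
    linarith
  · have ha := abs_le.1 (noAdj_rate n hn)
    have hb := bad_le n (by omega)
    have hk := Pool.Agent.TH645.US.frac_block_le n (by omega)
    have lower : frac n (fun π => ¬ HasAdj π) -
        frac n (fun π => ∃ k, 3 ≤ k ∧ k < n ∧ HasBlock π k) ≤ p n := by
      rw [sub_le_iff_le_add, p_eq]
      refine le_trans (frac_mono ?_) frac_or
      intro π hπ
      by_cases hb : ∃ k, 3 ≤ k ∧ k < n ∧ HasBlock π k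
      · right; exact hb
      · left
        apply unsplittable_of_simple
        intro k hk2 hkn hbk
        by_cases hk : k = 2
        · subst hk
          apply hπ
          obtain ⟨s, v, hsn, hsv⟩ := hbk
          have h1 := hsv ⟨s, by omega⟩ (le_refl _) (by simp)
          have h2 := hsv ⟨s + 1, by omega⟩ (by simp) (by simp)
          refine ⟨⟨s, by omega⟩, ⟨s + 1, by omega⟩, rfl, ?_⟩
          have h3 : (π ⟨s, by omega⟩).val ≠ (π ⟨s + 1, by omega⟩).val := by
            intro h
            have := π.injective (Fin.ext h)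
            simp at this
          omega
        · exact hb ⟨k, by omega, hkn, hbk⟩
    have upper : p n ≤ frac n (fun π => ¬ HasAdj π) + frac n (fun π => Bad π) := by
      rw [p_eq]
      refine le_trans (frac_mono ?_) frac_or
      intro π hπ
      by_contra hcon
      push Not at hcon
      exact split_adj h20 hcon.1 hcon.2 hπ
    have e1 : (462252 : ℝ) / n = 60 / n + 462192 / n := by ring
    have e2 : (3456 : ℝ) / n ≤ 462192 / n := div_le_div_of_nonneg_right (by norm_num) hn'.le
    rw [abs_le, e1]
    constructor <;> linarith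

/-- non-simple permutations with an unsplittable class are rare -/
theorem rare (n : ℕ) (hn : 1 ≤ n) : frac n (fun π => (∃ k, 2 ≤ k ∧ k < n ∧ HasBlock π k) ∧
    Unsplittable (Av π)) ≤ 465648 / n := by
  have hn' : (0 : ℝ) < n := by exact_mod_cast hn
  rcases Nat.lt_or_ge n 20 with h20 | h20
  · have h1 : frac n (fun π => (∃ k, 2 ≤ k ∧ k < n ∧ HasBlock π k) ∧ Unsplittable (Av π)) ≤ 1 := by
      unfold frac
      rw [div_le_one (by positivity)]
      have := @Finset.card_filter_le _ (Finset.univ : Finset (Perm (Fin n)))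
        (fun π : Perm (Fin n) => (∃ k, 2 ≤ k ∧ k < n ∧ HasBlock π k) ∧ Unsplittable (Av π))
        (fun _ => Classical.propDecidable _)
      rw [Finset.card_univ, Fintype.card_perm, Fintype.card_fin] at this
      exact_mod_cast this
    refine h1.trans ?_
    rw [le_div_iff₀ hn']
    have : (n : ℝ) < 20 := by exact_mod_cast h20
    linarith
  · have hb := bad_le n (by omega)
    have hk := Pool.Agent.TH645.US.frac_block_le n (by omega)
    have e1 : (465648 : ℝ) / n = 462192 / n + 3456 / n := by ring
    rw [e1]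
    refine le_trans (le_trans (frac_mono (Q := fun π => Bad π ∨ ∃ k, 3 ≤ k ∧ k < n ∧ HasBlock π k)
      ?_) frac_or) (add_le_add hb hk)
    rintro π ⟨⟨k, hk2, hkn, hbk⟩, hπ⟩
    by_cases hbad : Bad π
    · exact Or.inl hbad
    · right
      by_cases hk : k = 2
      · exfalso
        subst hk
        refine split_adj h20 ?_ hbad hπ
        obtain ⟨s, v, hsn, hsv⟩ := hbk
        have h1 := hsv ⟨s, by omega⟩ (le_refl _) (by simp)
        have h2 := hsv ⟨s + 1, by omega⟩ (by simp) (by simp)
        refine ⟨⟨s, by omega⟩, ⟨s + 1, by omega⟩, rfl, ?_⟩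
        have h3 : (π ⟨s, by omega⟩).val ≠ (π ⟨s + 1, by omega⟩).val := by
          intro h
          have := π.injective (Fin.ext h)
          simp at this
        omega
      · exact ⟨k, by omega, hkn, hbk⟩

end Pool.Agent.Y866.US
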